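import Pool.Agent.H76.APS.FINd

/-!
# Module FIN: the limit field vanishes far out
-/

set_option autoImplicit false

open MeasureTheory Set Filter Topology Metric
open scoped ENNReal NNReal ContDiff RealInnerProductSpace

namespace Pool.Agent.H76.APS

open Pool.Agent.H94.IC Pool.Agent.H94.AC Pool.Agent.H92.CK Pool.Agent.H65.AP Pool.Agent.H70.APS

theorem int_cs {Q : E → E} (hQ : MemLp Q 2 volume) {X : E → E} (hX : Continuous X)
    (hc : HasCompactSupport X) : Integrable fun y => ⟪Q y, X y⟫ :=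
  integrable_inner' hQ (hX.memLp_of_hasCompactSupport hc)

theorem gr_ch_cs {κ1 : E → ℝ} (h : Kap 1 κ1) {n : ℕ} (hn : 0 < n) :
    HasCompactSupport (gr (ch κ1 n)) := by
  refine HasCompactSupport.intro (isCompact_closedBall (0 : E) (2 * n)) fun y hy => ?_
  refine gr_ch_gt h hn ?_
  rw [mem_closedBall, dist_zero_right, not_le] at hy
  exact hy

theorem mf_gr_cs {κ : E → ℝ} (q : E → ℝ) (w : E) (h : HasCompactSupport (gr κ)) :
    HasCompactSupport (MF κ q w) := by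
  refine h.mono fun y hy => ?_
  rw [Function.mem_support] at hy ⊢
  exact fun h0 => hy (mf_gr_zero h0)

theorem mf_gr_cont {κ q : E → ℝ} (hκ : ContDiff ℝ ∞ κ) (hq : ContDiff ℝ ∞ q) (w : E) :
    Continuous (MF κ q w) :=
  mf_cont (gr_smooth hκ).continuous (gr_smooth hq).continuous w

theorem gr_cs {φ : E → ℝ} (h : HasCompactSupport φ) : HasCompactSupport (gr φ) := by
  refine h.mono' fun y hy => ?_
  by_contra hc
  apply hy
  exact gr_const' (c := 0) (notMem_tsupport_iff_eventuallyEq.1 hc)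

/-- one step of the argument -/
theorem step {κ κ1 q θ : E → ℝ} {R δ : ℝ} {W : Set E} {y0 v : E} {Q : E → E} (hMFI : T_MFI)
    (hR : 2 ≤ R) (hκ : Kap R κ) (hκ1 : Kap 1 κ1) (hball : ball y0 δ ⊆ ball 0 R)
    (hL : Lim κ W δ y0 v Q) (hq : ContDiff ℝ ∞ q)
    (hlap : ∀ y, ∑ j : Fin 3, pd j (pd j q) y = -(4 * Real.pi) * θ y)
    (hθ : Continuous θ) (hθc : HasCompactSupport θ) {n : ℕ} (hn : 2 * R ≤ n)
    (hθs : ∀ y, θ y ≠ 0 → 2 * R ≤ ‖y‖ ∧ ‖y‖ ≤ n) (w : E) :
    (∫ y, ⟪Q y, MF κ q w y⟫) + (∫ y, ⟪Q y, MF (ch κ1 n) q w y⟫)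
      + (4 * Real.pi) * ∫ y, θ y * ⟪Q y, w⟫ = 0 := by
  have hn0 : 0 < n := by
    have : (0 : ℝ) < n := by linarith
    exact_mod_cast this
  set K : E → ℝ := fun y => ch κ1 n y * κ y with hK
  have hKs : ContDiff ℝ ∞ K := (ch_smooth hκ1 n).mul hκ.sm
  have hK0 : ∀ y, ‖y‖ ≤ R → K y = 0 := fun y hy => by
    simp only [hK]
    rw [hκ.zero y hy, mul_zero]
  have hKfar : ∀ y, y ∉ closedBall (0 : E) (2 * n) → K y = 0 := fun y hy => by
    rw [mem_closedBall, dist_zero_right, not_le] at hy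
    simp only [hK]
    rw [ch_zero hκ1 hn0 hy.le, zero_mul]
  have hcrs : ContDiff ℝ ∞ fun y => cr (gr q y) w := cr_smooth (gr_smooth hq) w
  set B : E → E := fun y => K y • cr (gr q y) w with hB
  set φ : E → ℝ := fun y => K y * ⟪gr q y, w⟫ with hφ
  have hBs : ContDiff ℝ ∞ B := hKs.smul hcrs
  have hBc : HasCompactSupport B :=
    HasCompactSupport.intro (isCompact_closedBall (0 : E) (2 * n)) fun y hy => by
      simp only [hB]
      rw [hKfar y hy, zero_smul]
  have hBt : tsupport B ⊆ W ∪ (closedBall 0 1)ᶜ := by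
    have h1 : tsupport B ⊆ {y : E | R ≤ ‖y‖} := by
      refine closure_minimal (fun y hy => ?_) (isClosed_le continuous_const continuous_norm)
      by_contra hc
      simp only [mem_setOf_eq, not_le] at hc
      apply hy
      simp only [hB]
      rw [hK0 y hc.le, zero_smul]
    intro y hy
    right
    have h2 : R ≤ ‖y‖ := h1 hy
    rw [mem_compl_iff, mem_closedBall, dist_zero_right, not_le]
    linarith
  have hφs : ContDiff ℝ ∞ φ := hKs.mul ((gr_smooth hq).inner ℝ contDiff_const)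
  have hφc : HasCompactSupport φ :=
    HasCompactSupport.intro (isCompact_closedBall (0 : E) (2 * n)) fun y hy => by
      simp only [hφ]
      rw [hKfar y hy, zero_mul]
  have hφ0 : ∀ y ∈ ball y0 δ, gr φ y = 0 := fun y hy => by
    apply gr_const' (c := 0)
    have h1 : ball (0 : E) R ∈ 𝓝 y := isOpen_ball.mem_nhds (hball hy)
    filter_upwards [h1] with z hz
    rw [mem_ball, dist_zero_right] at hz
    simp only [hφ]
    rw [hK0 z hz.le, zero_mul]
  have hI1 : ∫ y, ⟪Q y, curl B y⟫ = 0 := hL.crl B hBs hBc hBt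
  have hI2 : ∫ y, ⟪Q y, gr φ y⟫ = 0 := by
    rw [hL.div φ hφs hφc]
    have : ∀ y ∈ ball y0 δ, ⟪v, gr φ y⟫ = 0 := fun y hy => by rw [hφ0 y hy, inner_zero_right]
    rw [setIntegral_congr_fun measurableSet_ball this]
    simp
  -- gradients of the product
  have hgK : ∀ y, gr K y = gr κ y + gr (ch κ1 n) y := fun y => by
    have h1 : gr K y = ch κ1 n y • gr κ y + κ y • gr (ch κ1 n) y :=
      gr_mul' ((ch_smooth hκ1 n).differentiable (by simp)).differentiableAt
        (hκ.sm.differentiable (by simp)).differentiableAt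
    rw [h1]
    congr 1
    · by_cases h2 : ‖y‖ ≤ 2 * R
      · rw [ch_one hκ1 hn0 (h2.trans hn), one_smul]
      · rw [gr_kap_gt hκ (not_le.1 h2), smul_zero]
    · by_cases h2 : ‖y‖ < n
      · rw [gr_ch_lt hκ1 hn0 h2, smul_zero]
      · rw [hκ.one y (hn.trans (not_lt.1 h2)), one_smul]
  have hKθ : ∀ y, K y * θ y = θ y := fun y => by
    by_cases h2 : θ y = 0
    · rw [h2, mul_zero]
    · obtain ⟨h3, h4⟩ := hθs y h2
      simp only [hK]
      rw [hκ.one y h3, ch_one hκ1 hn0 h4, one_mul, one_mul]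
  have hpt : ∀ y, ⟪Q y, curl B y⟫ = ⟪Q y, gr φ y⟫ + ⟪Q y, MF κ q w y⟫
      + ⟪Q y, MF (ch κ1 n) q w y⟫ + (4 * Real.pi) * (θ y * ⟪Q y, w⟫) := fun y => by
    have h1 := hMFI K q univ w y hKs isOpen_univ hq.contDiffOn (mem_univ y)
    have h2 : MF K q w y = MF κ q w y + MF (ch κ1 n) q w y := by
      rw [MF_eq, MF_eq, MF_eq, hgK y, mf_add_left]
    have h3 : K y * ∑ j : Fin 3, pd j (pd j q) y = -(4 * Real.pi) * θ y := by
      rw [hlap y, mul_left_comm, hKθ y]
    rw [h2, h3, sub_eq_iff_eq_add] at h1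
    have h4 : curl B y = MF κ q w y + MF (ch κ1 n) q w y - (-(4 * Real.pi) * θ y) • w
        + gr φ y := h1
    rw [h4]
    simp only [inner_add_right, inner_sub_right, inner_smul_right]
    ring
  have i1 : Integrable fun y => ⟪Q y, gr φ y⟫ :=
    int_cs hL.mem (gr_smooth hφs).continuous (gr_cs hφc)
  have i2 : Integrable fun y => ⟪Q y, MF κ q w y⟫ :=
    int_cs hL.mem (mf_gr_cont hκ.sm hq w) (mf_gr_cs q w (gr_kap_cs hκ))
  have i3 : Integrable fun y => ⟪Q y, MF (ch κ1 n) q w y⟫ :=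
    int_cs hL.mem (mf_gr_cont (ch_smooth hκ1 n) hq w) (mf_gr_cs q w (gr_ch_cs hκ1 hn0))
  have i4 : Integrable fun y => θ y * ⟪Q y, w⟫ := by
    have h1 : Integrable fun y => ⟪Q y, θ y • w⟫ :=
      int_cs hL.mem (hθ.smul continuous_const) hθc.smul_right
    refine h1.congr ?_
    filter_upwards with y
    rw [inner_smul_right]
  have h5 : (∫ y, ⟪Q y, curl B y⟫) = (∫ y, ⟪Q y, gr φ y⟫) + (∫ y, ⟪Q y, MF κ q w y⟫)
      + (∫ y, ⟪Q y, MF (ch κ1 n) q w y⟫) + (4 * Real.pi) * ∫ y, θ y * ⟪Q y, w⟫ := by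
    simp_rw [hpt]
    have j1 : Integrable fun y => ⟪Q y, gr φ y⟫ + ⟪Q y, MF κ q w y⟫ := i1.add i2
    have j2 : Integrable fun y => ⟪Q y, gr φ y⟫ + ⟪Q y, MF κ q w y⟫
        + ⟪Q y, MF (ch κ1 n) q w y⟫ := j1.add i3
    have j3 : Integrable fun y => (4 * Real.pi) * (θ y * ⟪Q y, w⟫) := i4.const_mul _
    rw [integral_add j2 j3, integral_add j1 i3, integral_add i1 i2, integral_const_mul]
  rw [hI1, hI2] at h5
  linarith

theorem pf_FIN (hMFI : T_MFI) (hNZM : T_NZM) (hNPT : T_NPT) (hKAP : T_KAP) : T_FIN := by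
  intro κ R δ W y0 v Q hR hκ hδ hball hL θ hθ hθc hθs w
  obtain ⟨hq, hlap, hgr, C, hC⟩ := hNPT θ hθ hθc
  obtain ⟨κ1, hκ1⟩ := hKAP 1 one_pos
  have hR0 : 0 < R := by linarith
  have hz := near_zero hNZM hR0 hκ hL.mem hL.mom hθ hθc hθs hgr w
  have ht := tail_tendsto hκ1 hL.mem hq w hC
  obtain ⟨r, hr⟩ := hθc.isBounded.subset_closedBall (0 : E)
  have hs : ∀ᶠ n : ℕ in atTop, (∫ y, ⟪Q y, MF (ch κ1 n) (npt θ) w y⟫)
      = -((4 * Real.pi) * ∫ y, θ y * ⟪Q y, w⟫) := by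
    obtain ⟨N, hN⟩ := exists_nat_gt (max r (2 * R))
    filter_upwards [eventually_ge_atTop N] with n hn
    have hn' : (N : ℝ) ≤ n := Nat.cast_le.2 hn
    have h1 := step (n := n) hMFI hR hκ hκ1 hball hL hq hlap hθ.continuous hθc
      ((le_max_right _ _).trans (hN.le.trans hn')) (fun y hy => ?_) w
    · rw [hz, zero_add] at h1
      linarith
    · have h2 : y ∈ tsupport θ := subset_tsupport _ hy
      have h3 := hθs y h2
      have h4 := hr h2
      rw [mem_closedBall, dist_zero_right] at h4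
      exact ⟨by linarith, h4.trans ((le_max_left _ _).trans (hN.le.trans hn'))⟩
  have h6 : Tendsto (fun n : ℕ => ∫ y, ⟪Q y, MF (ch κ1 n) (npt θ) w y⟫) atTop
      (𝓝 (-((4 * Real.pi) * ∫ y, θ y * ⟪Q y, w⟫))) :=
    tendsto_const_nhds.congr' (hs.mono fun n hn => hn.symm)
  have h7 := tendsto_nhds_unique ht h6
  have h8 : (4 * Real.pi) * ∫ y, θ y * ⟪Q y, w⟫ = 0 := by linarith
  exact (mul_eq_zero.1 h8).resolve_left (by positivity)

end Pool.Agent.H76.APS
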