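import Pool.Agent.H70.APS.Targets

/-!
# Module FIN: tools on gradients, moment fields and the Newton kernel
-/

set_option autoImplicit false

open MeasureTheory Set Filter Topology Metric
open scoped ENNReal NNReal ContDiff RealInnerProductSpace

namespace Pool.Agent.H76.APS

open Pool.Agent.H94.IC Pool.Agent.H94.AC Pool.Agent.H92.CK Pool.Agent.H65.AP Pool.Agent.H70.APS

theorem gr_congr' {f g : E → ℝ} {x : E} (h : f =ᶠ[𝓝 x] g) : gr f x = gr g x := by
  unfold gr gradient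
  rw [h.fderiv_eq]

theorem gr_const' {f : E → ℝ} {x : E} {c : ℝ} (h : f =ᶠ[𝓝 x] fun _ => c) : gr f x = 0 := by
  rw [gr_congr' h]
  unfold gr gradient
  simp

theorem gr_smooth {f : E → ℝ} (hf : ContDiff ℝ ∞ f) : ContDiff ℝ ∞ (gr f) := by
  unfold gr gradient
  have h1 : ContDiff ℝ ∞ (fderiv ℝ f) := hf.fderiv_right (by simp)
  exact (InnerProductSpace.toDual ℝ E).symm.contDiff.comp h1

theorem gr_inner' (f : E → ℝ) (x v : E) : ⟪gr f x, v⟫ = fderiv ℝ f x v := by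
  unfold gr gradient
  exact InnerProductSpace.toDual_symm_apply

theorem gr_mul' {f g : E → ℝ} {x : E} (hf : DifferentiableAt ℝ f x) (hg : DifferentiableAt ℝ g x) :
    gr (fun y => f y * g y) x = f x • gr g x + g x • gr f x := by
  unfold gr gradient
  rw [fderiv_fun_mul hf hg, map_add, map_smul, map_smul]

/-- the algebraic form of the moment field -/
noncomputable def mf (a b w : E) : E := ⟪a, w⟫ • b - ⟪a, b⟫ • w - ⟪b, w⟫ • a

theorem MF_eq (κ q : E → ℝ) (w y : E) : MF κ q w y = mf (gr κ y) (gr q y) w := rfl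

theorem mf_zero_left (b w : E) : mf 0 b w = 0 := by simp [mf]

theorem mf_add_left (a a' b w : E) : mf (a + a') b w = mf a b w + mf a' b w := by
  simp only [mf, inner_add_left, add_smul, smul_add]
  abel

theorem mf_norm (a b w : E) : ‖mf a b w‖ ≤ 3 * ‖a‖ * ‖b‖ * ‖w‖ := by
  have h1 : ‖⟪a, w⟫ • b‖ ≤ ‖a‖ * ‖b‖ * ‖w‖ := by
    rw [norm_smul]
    calc ‖⟪a, w⟫‖ * ‖b‖ ≤ (‖a‖ * ‖w‖) * ‖b‖ :=
          mul_le_mul_of_nonneg_right (norm_inner_le_norm _ _) (norm_nonneg _)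
      _ = _ := by ring
  have h2 : ‖⟪a, b⟫ • w‖ ≤ ‖a‖ * ‖b‖ * ‖w‖ := by
    rw [norm_smul]
    exact mul_le_mul_of_nonneg_right (norm_inner_le_norm _ _) (norm_nonneg _)
  have h3 : ‖⟪b, w⟫ • a‖ ≤ ‖a‖ * ‖b‖ * ‖w‖ := by
    rw [norm_smul]
    calc ‖⟪b, w⟫‖ * ‖a‖ ≤ (‖b‖ * ‖w‖) * ‖a‖ :=
          mul_le_mul_of_nonneg_right (norm_inner_le_norm _ _) (norm_nonneg _)
      _ = _ := by ring
  calc ‖mf a b w‖ ≤ ‖⟪a, w⟫ • b‖ + ‖⟪a, b⟫ • w‖ + ‖⟪b, w⟫ • a‖ := by
        unfold mf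
        exact (norm_sub_le _ _).trans (add_le_add (norm_sub_le _ _) le_rfl)
    _ ≤ _ := by linarith

theorem mf_cont {X : Type} [TopologicalSpace X] {a b : X → E} (ha : Continuous a)
    (hb : Continuous b) (w : E) : Continuous fun x => mf (a x) (b x) w := by
  unfold mf
  fun_prop

theorem mf_meas {X : Type} [MeasurableSpace X] {a b : X → E} (ha : Measurable a)
    (hb : Measurable b) (w : E) : Measurable fun x => mf (a x) (b x) w := by
  unfold mf
  fun_prop

/-- the functional `b ↦ ⟪u, mf a b w⟫` -/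
noncomputable def mfL (u a w : E) : E →L[ℝ] ℝ :=
  ⟪a, w⟫ • innerSL ℝ u - ⟪u, w⟫ • innerSL ℝ a - ⟪u, a⟫ • innerSL ℝ w

theorem mfL_apply (u a w b : E) : mfL u a w b = ⟪u, mf a b w⟫ := by
  simp only [mfL, mf, ContinuousLinearMap.sub_apply, ContinuousLinearMap.smul_apply,
    innerSL_apply_apply, smul_eq_mul, inner_sub_right, inner_smul_right]
  rw [real_inner_comm w b]
  ring

/-- the gradient of the Newton kernel -/
noncomputable def ng (z y : E) : E := (‖z - y‖⁻¹) ^ 3 • (z - y)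

theorem gr_newton {z y : E} (h : z ≠ y) : gr (fun y' => ‖z - y'‖⁻¹) y = ng z y := by
  have hx : z - y ≠ 0 := sub_ne_zero.2 h
  have hn : ‖z - y‖ ≠ 0 := norm_ne_zero_iff.2 hx
  have h0 : HasFDerivAt (fun x : E => ‖x‖ ^ 2) (2 • innerSL ℝ (z - y)) (z - y) :=
    (hasStrictFDerivAt_norm_sq _).hasFDerivAt
  have h1 : HasFDerivAt (fun x : E => Real.sqrt (‖x‖ ^ 2))
      ((1 / (2 * Real.sqrt (‖z - y‖ ^ 2))) • (2 • innerSL ℝ (z - y))) (z - y) :=
    h0.sqrt (by positivity)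
  have h2 : (fun x : E => Real.sqrt (‖x‖ ^ 2)) = fun x => ‖x‖ := by
    funext x
    exact Real.sqrt_sq (norm_nonneg x)
  rw [h2, Real.sqrt_sq (norm_nonneg _)] at h1
  have h3 : HasDerivAt (fun t : ℝ => t⁻¹) (-(‖z - y‖ ^ 2)⁻¹) ‖z - y‖ := hasDerivAt_inv hn
  have h4 := h3.comp_hasFDerivAt (z - y) h1
  have h5 : HasFDerivAt (fun y' : E => z - y') (-(ContinuousLinearMap.id ℝ E)) y :=
    (hasFDerivAt_id y).const_sub z
  have h6 := h4.comp y h5
  have h7 : fderiv ℝ (fun y' : E => ‖z - y'‖⁻¹) y = _ := h6.fderiv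
  apply ext_inner_right ℝ
  intro v
  rw [gr_inner', h7]
  simp only [ng, ContinuousLinearMap.comp_apply, ContinuousLinearMap.smul_apply,
    ContinuousLinearMap.neg_apply, ContinuousLinearMap.id_apply, innerSL_apply_apply,
    smul_eq_mul, nsmul_eq_mul, inner_smul_left, inner_neg_right]
  simp only [RCLike.conj_to_real]
  push_cast
  field_simp

theorem ng_norm (z y : E) : ‖ng z y‖ = (‖z - y‖⁻¹) ^ 2 := by
  unfold ng
  rw [norm_smul, Real.norm_of_nonneg (by positivity)]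
  rcases eq_or_ne (‖z - y‖) 0 with h | h
  · rw [h]; simp
  · field_simp

theorem integrable_inner' {Q X : E → E} (hQ : MemLp Q 2 volume) (hX : MemLp X 2 volume) :
    Integrable fun y => ⟪Q y, X y⟫ := by
  have h := MeasureTheory.L2.integrable_inner (𝕜 := ℝ) (hQ.toLp Q) (hX.toLp X)
  refine h.congr ?_
  filter_upwards [hQ.coeFn_toLp, hX.coeFn_toLp] with y h1 h2
  rw [h1, h2]

/-- the cross product with a fixed vector -/
noncomputable def crL (w : E) : E →ₗ[ℝ] E where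
  toFun a := cr a w
  map_add' a b := by
    ext k
    fin_cases k <;> simp [cr] <;> ring
  map_smul' c a := by
    ext k
    fin_cases k <;> simp [cr] <;> ring

theorem cr_smooth {f : E → E} (hf : ContDiff ℝ ∞ f) (w : E) : ContDiff ℝ ∞ fun y => cr (f y) w :=
  ((crL w).toContinuousLinearMap.contDiff).comp hf

end Pool.Agent.H76.APS
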