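import Pool.Agent.H76.APS.FINa

/-!
# Module FIN: cutoff functions at infinity
-/

set_option autoImplicit false

open MeasureTheory Set Filter Topology Metric
open scoped ENNReal NNReal ContDiff RealInnerProductSpace

namespace Pool.Agent.H76.APS

open Pool.Agent.H94.IC Pool.Agent.H94.AC Pool.Agent.H92.CK Pool.Agent.H65.AP Pool.Agent.H70.APS

/-- cutoff functions: one in the ball of radius `n`, zero off the ball of radius `2 n` -/
noncomputable def ch (κ1 : E → ℝ) (n : ℕ) (y : E) : ℝ := 1 - κ1 ((n : ℝ)⁻¹ • y)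

variable {κ1 : E → ℝ}

theorem ch_smooth (h : Kap 1 κ1) (n : ℕ) : ContDiff ℝ ∞ (ch κ1 n) := by
  unfold ch
  exact contDiff_const.sub (h.sm.comp (contDiff_const_smul ((n : ℝ)⁻¹)))

theorem ch_one (h : Kap 1 κ1) {n : ℕ} (hn : 0 < n) {y : E} (hy : ‖y‖ ≤ n) : ch κ1 n y = 1 := by
  have hn' : (0 : ℝ) < n := Nat.cast_pos.2 hn
  unfold ch
  rw [h.zero, sub_zero]
  rw [norm_smul, norm_inv, Real.norm_of_nonneg hn'.le, inv_mul_le_iff₀ hn', mul_one]
  exact hy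

theorem ch_zero (h : Kap 1 κ1) {n : ℕ} (hn : 0 < n) {y : E} (hy : 2 * (n : ℝ) ≤ ‖y‖) :
    ch κ1 n y = 0 := by
  have hn' : (0 : ℝ) < n := Nat.cast_pos.2 hn
  unfold ch
  rw [h.one, sub_self]
  rw [norm_smul, norm_inv, Real.norm_of_nonneg hn'.le, le_inv_mul_iff₀ hn']
  linarith

theorem gr_ch_lt (h : Kap 1 κ1) {n : ℕ} (hn : 0 < n) {y : E} (hy : ‖y‖ < n) :
    gr (ch κ1 n) y = 0 := by
  apply gr_const' (c := 1)
  have : {z : E | ‖z‖ < n} ∈ 𝓝 y := (isOpen_lt continuous_norm continuous_const).mem_nhds hy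
  filter_upwards [this] with z hz
  exact ch_one h hn (le_of_lt hz)

theorem gr_ch_gt (h : Kap 1 κ1) {n : ℕ} (hn : 0 < n) {y : E} (hy : 2 * (n : ℝ) < ‖y‖) :
    gr (ch κ1 n) y = 0 := by
  apply gr_const' (c := 0)
  have : {z : E | 2 * (n : ℝ) < ‖z‖} ∈ 𝓝 y :=
    (isOpen_lt continuous_const continuous_norm).mem_nhds hy
  filter_upwards [this] with z hz
  exact ch_zero h hn (le_of_lt hz)

theorem gr_kap_lt {R : ℝ} {κ : E → ℝ} (h : Kap R κ) {y : E} (hy : ‖y‖ < R) : gr κ y = 0 := by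
  apply gr_const' (c := 0)
  have : {z : E | ‖z‖ < R} ∈ 𝓝 y := (isOpen_lt continuous_norm continuous_const).mem_nhds hy
  filter_upwards [this] with z hz
  exact h.zero z (le_of_lt hz)

theorem gr_kap_gt {R : ℝ} {κ : E → ℝ} (h : Kap R κ) {y : E} (hy : 2 * R < ‖y‖) : gr κ y = 0 := by
  apply gr_const' (c := 1)
  have : {z : E | 2 * R < ‖z‖} ∈ 𝓝 y :=
    (isOpen_lt continuous_const continuous_norm).mem_nhds hy
  filter_upwards [this] with z hz
  exact h.one z (le_of_lt hz)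

theorem gr_kap_cs {R : ℝ} {κ : E → ℝ} (h : Kap R κ) : HasCompactSupport (gr κ) := by
  refine HasCompactSupport.intro (isCompact_closedBall (0 : E) (2 * R)) fun y hy => ?_
  refine gr_kap_gt h ?_
  rw [mem_closedBall, dist_zero_right, not_le] at hy
  exact hy

/-- the gradients of the cutoff functions -/
theorem gr_ch_eq (h : Kap 1 κ1) (n : ℕ) (y : E) :
    gr (ch κ1 n) y = -((n : ℝ)⁻¹ • gr κ1 ((n : ℝ)⁻¹ • y)) := by
  apply ext_inner_right ℝ
  intro v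
  rw [gr_inner', inner_neg_left, inner_smul_left, gr_inner']
  have h1 : HasFDerivAt κ1 (fderiv ℝ κ1 ((n : ℝ)⁻¹ • y)) ((n : ℝ)⁻¹ • y) :=
    (h.sm.differentiable (by simp)).differentiableAt.hasFDerivAt
  have h2 : HasFDerivAt (fun z : E => (n : ℝ)⁻¹ • z) ((n : ℝ)⁻¹ • ContinuousLinearMap.id ℝ E) y :=
    ((n : ℝ)⁻¹ • ContinuousLinearMap.id ℝ E).hasFDerivAt
  have h3 := (h1.comp y h2).const_sub 1
  have h4 : fderiv ℝ (ch κ1 n) y = _ := h3.fderiv
  rw [h4]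
  simp

/-- the gradients of the cutoff functions are small -/
theorem gr_ch_bound (h : Kap 1 κ1) : ∃ C : ℝ, 0 ≤ C ∧ ∀ (n : ℕ) (y : E), 0 < n →
    ‖gr (ch κ1 n) y‖ ≤ C / (1 + ‖y‖) := by
  obtain ⟨C, hC⟩ := (gr_kap_cs h).exists_bound_of_continuous (gr_smooth h.sm).continuous
  have hC0 : 0 ≤ C := (norm_nonneg _).trans (hC 0)
  refine ⟨3 * C, by positivity, fun n y hn => ?_⟩
  have hn' : (0 : ℝ) < n := Nat.cast_pos.2 hn
  have hn1 : (1 : ℝ) ≤ n := Nat.one_le_cast.2 hn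
  rcases lt_or_ge (2 * (n : ℝ)) ‖y‖ with hy | hy
  · rw [gr_ch_gt h hn hy, norm_zero]
    positivity
  · rw [gr_ch_eq h, norm_neg, norm_smul, norm_inv, Real.norm_of_nonneg hn'.le]
    have h1 : (n : ℝ)⁻¹ * ‖gr κ1 ((n : ℝ)⁻¹ • y)‖ ≤ (n : ℝ)⁻¹ * C :=
      mul_le_mul_of_nonneg_left (hC _) (by positivity)
    refine h1.trans ?_
    rw [le_div_iff₀ (by positivity), inv_mul_eq_div, div_mul_eq_mul_div, div_le_iff₀ hn']
    nlinarith

end Pool.Agent.H76.APS
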