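import Pool.Agent.H76.APS.FINb

/-!
# Module FIN: the tails
-/

set_option autoImplicit false

open MeasureTheory Set Filter Topology Metric
open scoped ENNReal NNReal ContDiff RealInnerProductSpace

namespace Pool.Agent.H76.APS

open Pool.Agent.H94.IC Pool.Agent.H94.AC Pool.Agent.H92.CK Pool.Agent.H65.AP Pool.Agent.H70.APS

theorem memLp_weight (A : ℝ) : MemLp (fun y : E => A * ((1 + ‖y‖)⁻¹) ^ 3) 2 volume := by
  have hc : Continuous fun y : E => A * ((1 + ‖y‖)⁻¹) ^ 3 := by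
    have : Continuous fun y : E => (1 + ‖y‖)⁻¹ :=
      (continuous_const.add continuous_norm).inv₀ fun y =>
        (by positivity : (1 + ‖y‖ : ℝ) ≠ 0)
    fun_prop
  rw [memLp_two_iff_integrable_sq hc.aestronglyMeasurable]
  have h := integrable_one_add_norm (E := E) (μ := volume) (r := 6) (by
    rw [finrank_euclideanSpace_fin]; norm_num)
  refine (h.const_mul (A ^ 2)).congr ?_
  filter_upwards with y
  have h1 : (0 : ℝ) ≤ 1 + ‖y‖ := by positivity
  rw [Real.rpow_neg h1, show (6 : ℝ) = ((6 : ℕ) : ℝ) by norm_num, Real.rpow_natCast]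
  rw [inv_pow, mul_pow, inv_pow, ← pow_mul]

theorem tail_tendsto {κ1 : E → ℝ} (h : Kap 1 κ1) {Q : E → E} {q : E → ℝ} (hQ : MemLp Q 2 volume)
    (hq : ContDiff ℝ ∞ q) (w : E) {C : ℝ} (hC : ∀ y, ‖gr q y‖ ≤ C / (1 + ‖y‖) ^ 2) :
    Tendsto (fun n : ℕ => ∫ y, ⟪Q y, MF (ch κ1 n) q w y⟫) atTop (𝓝 0) := by
  obtain ⟨C1, hC1, hb⟩ := gr_ch_bound h
  have hC0 : 0 ≤ C := by
    have := (norm_nonneg _).trans (hC 0)
    simpa using this
  set A : ℝ := 3 * C1 * C * ‖w‖ with hA
  have key : ∀ (n : ℕ) (y : E), 0 < n → ‖MF (ch κ1 n) q w y‖ ≤ A * ((1 + ‖y‖)⁻¹) ^ 3 := by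
    intro n y hn
    rw [MF_eq]
    refine (mf_norm _ _ _).trans ?_
    have h1 : 3 * ‖gr (ch κ1 n) y‖ * ‖gr q y‖ * ‖w‖
        ≤ 3 * (C1 / (1 + ‖y‖)) * (C / (1 + ‖y‖) ^ 2) * ‖w‖ := by
      have := hb n y hn
      have := hC y
      gcongr
    refine h1.trans (le_of_eq ?_)
    rw [hA]
    have : (1 + ‖y‖) ≠ 0 := by positivity
    field_simp
  have hbound : Integrable (fun y : E => ‖Q y‖ * (A * ((1 + ‖y‖)⁻¹) ^ 3)) volume :=
    MemLp.integrable_mul hQ.norm (memLp_weight A)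
  have h0 : (0 : ℝ) = ∫ y : E, (0 : ℝ) := by simp
  rw [h0]
  refine tendsto_integral_filter_of_dominated_convergence
    (fun y : E => ‖Q y‖ * (A * ((1 + ‖y‖)⁻¹) ^ 3)) ?_ ?_ hbound ?_
  · filter_upwards with n
    refine hQ.aestronglyMeasurable.inner ?_
    have : Continuous fun y => MF (ch κ1 n) q w y :=
      mf_cont (gr_smooth (ch_smooth h n)).continuous (gr_smooth hq).continuous w
    exact this.aestronglyMeasurable
  · filter_upwards [eventually_gt_atTop 0] with n hn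
    filter_upwards with y
    refine (norm_inner_le_norm _ _).trans ?_
    exact mul_le_mul_of_nonneg_left (key n y hn) (norm_nonneg _)
  · filter_upwards with y
    refine tendsto_const_nhds.congr' ?_
    obtain ⟨N, hN⟩ := exists_nat_gt ‖y‖
    filter_upwards [eventually_gt_atTop 0, eventually_ge_atTop N] with n hn hNn
    rw [MF_eq, gr_ch_lt h hn (hN.trans_le (Nat.cast_le.2 hNn)), mf_zero_left, inner_zero_right]

end Pool.Agent.H76.APS
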