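import Pool.Agent.H76.APS.FINc

/-!
# Module FIN: the part near the origin
-/

set_option autoImplicit false

open MeasureTheory Set Filter Topology Metric
open scoped ENNReal NNReal ContDiff RealInnerProductSpace

namespace Pool.Agent.H76.APS

open Pool.Agent.H94.IC Pool.Agent.H94.AC Pool.Agent.H92.CK Pool.Agent.H65.AP Pool.Agent.H70.APS

theorem ng_meas : Measurable fun p : E × E => ng p.2 p.1 := by
  unfold ng
  fun_prop

theorem ng_meas1 (y : E) : Measurable fun z : E => ng z y := by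
  unfold ng
  fun_prop

theorem mf_gr_zero {κ q : E → ℝ} {w y : E} (h : gr κ y = 0) : MF κ q w y = 0 := by
  unfold MF
  rw [h]
  simp

/-- the pointwise formula, abstract form -/
theorem point_formula {θ : E → ℝ} (hθ : Continuous θ) (hθi : Integrable θ volume) {B : ℝ} (y u a w b : E)
    (hne : ∀ z, θ z ≠ 0 → z ≠ y) (hB : ∀ z, θ z ≠ 0 → ‖ng z y‖ ≤ B)
    (hb : b = ∫ z, θ z • gr (fun y' => ‖z - y'‖⁻¹) y) :
    ⟪u, mf a b w⟫ = ∫ z, θ z * ⟪u, mf a (ng z y) w⟫ := by
  have e0 : (fun z => θ z • gr (fun y' => ‖z - y'‖⁻¹) y) = fun z => θ z • ng z y := by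
    funext z
    by_cases hz : θ z = 0
    · rw [hz, zero_smul, zero_smul]
    · rw [gr_newton (hne z hz)]
  have hi : Integrable (fun z => θ z • ng z y) volume := by
    refine Integrable.mono' (hθi.norm.mul_const B) ?_ ?_
    · refine hθ.aestronglyMeasurable.smul ?_
      exact (ng_meas1 y).aestronglyMeasurable
    · filter_upwards with z
      by_cases hz : θ z = 0
      · rw [hz]; simp
      · rw [norm_smul]
        exact mul_le_mul_of_nonneg_left (hB z hz) (norm_nonneg _)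
  rw [hb, e0, ← mfL_apply, ← ContinuousLinearMap.integral_comp_comm _ hi]
  apply integral_congr_ae
  filter_upwards with z
  rw [map_smul, smul_eq_mul, mfL_apply]

theorem near_zero (hNZM : T_NZM) {κ : E → ℝ} {R : ℝ} {Q : E → E} (hR : 0 < R) (hκ : Kap R κ)
    (hQ : MemLp Q 2 volume)
    (hmom : ∀ (a b : E) (c : ℂ) (k : ℕ) (w : E), ON a b → ∫ y, ⟪Q y, MF κ (bk a b c k) w y⟫ = 0)
    {θ : E → ℝ} (hθ : ContDiff ℝ ∞ θ) (hθc : HasCompactSupport θ)
    (hθs : ∀ y ∈ tsupport θ, 8 * R < ‖y‖)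
    (hgr : ∀ y, y ∉ tsupport θ →
      gr (npt θ) y = ∫ z, θ z • gr (fun y' => ‖z - y'‖⁻¹) y) (w : E) :
    ∫ y, ⟪Q y, MF κ (npt θ) w y⟫ = 0 := by
  have hsmall : ∀ y, gr κ y ≠ 0 → ‖y‖ ≤ 2 * R := fun y hy => by
    by_contra hc
    exact hy (gr_kap_gt hκ (not_le.1 hc))
  have hbig : ∀ z, θ z ≠ 0 → 8 * R < ‖z‖ := fun z hz => hθs z (subset_tsupport _ hz)
  have hdist : ∀ y z, gr κ y ≠ 0 → θ z ≠ 0 → 6 * R ≤ ‖z - y‖ := by
    intro y z hy hz
    have h1 := hsmall y hy
    have h2 := hbig z hz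
    have h3 : ‖z‖ - ‖y‖ ≤ ‖z - y‖ := norm_sub_norm_le _ _
    linarith
  have hne : ∀ y z, gr κ y ≠ 0 → θ z ≠ 0 → z ≠ y := by
    intro y z hy hz h
    have := hdist y z hy hz
    rw [h, sub_self, norm_zero] at this
    linarith
  have hngb : ∀ y z, gr κ y ≠ 0 → θ z ≠ 0 → ‖ng z y‖ ≤ ((6 * R)⁻¹) ^ 2 := by
    intro y z hy hz
    rw [ng_norm]
    have h1 := hdist y z hy hz
    have h2 : ‖z - y‖⁻¹ ≤ (6 * R)⁻¹ := inv_anti₀ (by positivity) h1
    exact pow_le_pow_left₀ (by positivity) h2 2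
  have hθi : Integrable θ volume := hθ.continuous.integrable_of_hasCompactSupport hθc
  -- the pointwise formula
  have e1 : ∀ y, ⟪Q y, MF κ (npt θ) w y⟫
      = ∫ z, θ z * ⟪Q y, mf (gr κ y) (ng z y) w⟫ := by
    intro y
    by_cases hy : gr κ y = 0
    · rw [mf_gr_zero hy, inner_zero_right, hy]
      have : ∀ z, θ z * ⟪Q y, mf 0 (ng z y) w⟫ = 0 := fun z => by
        rw [mf_zero_left, inner_zero_right, mul_zero]
      simp_rw [this]
      rw [integral_zero]
    · have hy1 : y ∉ tsupport θ := fun h => by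
        have h1 := hθs y h
        have h2 := hsmall y hy
        linarith
      exact point_formula hθ.continuous hθi y (Q y) (gr κ y) w (gr (npt θ) y)
        (fun z hz => hne y z hy hz) (fun z hz => hngb y z hy hz) (hgr y hy1)
  -- integrability on the product
  have hB : Integrable (fun y => ‖Q y‖ * ‖gr κ y‖) volume := by
    have h1 : MemLp (gr κ) 2 volume :=
      (gr_smooth hκ.sm).continuous.memLp_of_hasCompactSupport (gr_kap_cs hκ)
    exact MemLp.integrable_mul hQ.norm h1.norm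
  have hint : Integrable (Function.uncurry fun y z => θ z * ⟪Q y, mf (gr κ y) (ng z y) w⟫)
      (volume.prod volume) := by
    have h1 : Integrable (fun p : E × E => (‖Q p.1‖ * ‖gr κ p.1‖) * ‖θ p.2‖)
        (volume.prod volume) := hB.mul_prod hθi.norm
    refine Integrable.mono' (h1.const_mul (3 * ((6 * R)⁻¹) ^ 2 * ‖w‖)) ?_ ?_
    · refine AEStronglyMeasurable.mul
        (hθ.continuous.comp continuous_snd).aestronglyMeasurable ?_
      refine AEStronglyMeasurable.inner hQ.aestronglyMeasurable.comp_fst ?_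
      have : Measurable fun p : E × E => mf (gr κ p.1) (ng p.2 p.1) w :=
        mf_meas ((gr_smooth hκ.sm).continuous.measurable.comp measurable_fst) ng_meas w
      exact this.aestronglyMeasurable
    · filter_upwards with p
      obtain ⟨y, z⟩ := p
      simp only [Function.uncurry_apply_pair]
      rcases eq_or_ne (gr κ y) 0 with hy | hy
      · rw [hy]
        simp [mf_zero_left]
      rcases eq_or_ne (θ z) 0 with hz | hz
      · rw [hz]; simp
      rw [norm_mul]
      have h2 : ‖⟪Q y, mf (gr κ y) (ng z y) w⟫‖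
          ≤ ‖Q y‖ * (3 * ‖gr κ y‖ * ((6 * R)⁻¹) ^ 2 * ‖w‖) := by
        refine (norm_inner_le_norm _ _).trans (mul_le_mul_of_nonneg_left ?_ (norm_nonneg _))
        refine (mf_norm _ _ _).trans ?_
        have := hngb y z hy hz
        gcongr
      calc ‖θ z‖ * ‖⟪Q y, mf (gr κ y) (ng z y) w⟫‖
          ≤ ‖θ z‖ * (‖Q y‖ * (3 * ‖gr κ y‖ * ((6 * R)⁻¹) ^ 2 * ‖w‖)) :=
            mul_le_mul_of_nonneg_left h2 (norm_nonneg _)
        _ = _ := by ring
  simp_rw [e1]
  rw [integral_integral_swap hint]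
  have e2 : ∀ z, ∫ y, θ z * ⟪Q y, mf (gr κ y) (ng z y) w⟫ = 0 := by
    intro z
    rcases eq_or_ne (θ z) 0 with hz | hz
    · rw [hz]; simp
    · rw [integral_const_mul]
      have h1 : ∀ y, ⟪Q y, mf (gr κ y) (ng z y) w⟫
          = ⟪Q y, MF κ (fun y' => ‖z - y'‖⁻¹) w y⟫ := by
        intro y
        rw [MF_eq]
        rcases eq_or_ne (gr κ y) 0 with hy | hy
        · rw [hy, mf_zero_left, mf_zero_left]
        · rw [gr_newton (hne y z hy hz)]
      simp_rw [h1]
      rw [hNZM κ R Q z w hR hκ hQ hmom (hbig z hz), mul_zero]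
  simp_rw [e2]
  simp

end Pool.Agent.H76.APS
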